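import Mathlib

set_option autoImplicit false

namespace Pool.Agent.Results.MP_b5d889_lc.UnboundedRatio

/-- A cell state `(t, r, b, l)`: the top, right, bottom and left part; `true` is a particle. -/
abbrev St := Bool × Bool × Bool × Bool

/-- the state without particles -/
def zeroSt : St := (false, false, false, false)

/-- the rotation `ρ(t, r, b, l) = (l, t, r, b)` -/
def rho (s : St) : St := (s.2.2.2, s.1, s.2.1, s.2.2.1)

/-- configurations on the cell space `ℤ × ℤ` -/
abbrev Cfg := ℤ → ℤ → St

/-- local functions of elementary square partitioned cellular automata -/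
structure IsESPCA (f : St → St) : Prop where
  zero : f zeroSt = zeroSt
  rot : ∀ s, f (rho s) = rho (f s)

/-- One time step: the new state of a cell is `f` of the bottom part of the upper neighbour, the
left part of the right neighbour, the top part of the lower neighbour and the right part of the
left neighbour. -/
def step (f : St → St) (c : Cfg) : Cfg := fun x y =>
  f ((c x (y + 1)).2.2.1, (c (x + 1) y).2.2.2, (c x (y - 1)).1, (c (x - 1) y).2.1)

lemma step_apply (f : St → St) (c : Cfg) (x y : ℤ) : step f c x y =
    f ((c x (y + 1)).2.2.1, (c (x + 1) y).2.2.2, (c x (y - 1)).1, (c (x - 1) y).2.1) := rfl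

/-- part number `i` (`0` top, `1` right, `2` bottom, `3` left) of a state -/
def part (s : St) (i : Fin 4) : Bool := ![s.1, s.2.1, s.2.2.1, s.2.2.2] i

/-- the set of particles of a configuration -/
def particles (c : Cfg) : Set (ℤ × ℤ × Fin 4) := {q | part (c q.1 q.2.1) q.2.2 = true}

/-- the population: the number of particles -/
noncomputable def pop (c : Cfg) : ℕ := (particles c).ncard

/-- the largest population among `c, F c, ..., F^(p-1) c` -/
noncomputable def pmax (f : St → St) (c : Cfg) (p : ℕ) : ℕ :=
  (Finset.range p).sup fun i => pop ((step f)^[i] c)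

/-- the smallest population among `c, F c, ..., F^(p-1) c` -/
noncomputable def pmin (f : St → St) (c : Cfg) (p : ℕ) : ℕ :=
  sInf ((fun i => pop ((step f)^[i] c)) '' {i | i < p})

/-! ### The local function -/

/-- the local function: single particles and opposite pairs stay, adjacent pairs and triples are
permuted -/
def f0 : St → St
  | (true, true, false, false) => (false, true, true, true)
  | (false, true, true, false) => (true, false, true, true)
  | (false, false, true, true) => (true, true, false, true)
  | (true, false, false, true) => (true, true, true, false)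
  | (true, true, true, false) => (true, true, false, false)
  | (false, true, true, true) => (false, true, true, false)
  | (true, false, true, true) => (false, false, true, true)
  | (true, true, false, true) => (true, false, false, true)
  | s => s

lemma f0_espca : IsESPCA f0 := ⟨by decide, by decide⟩

lemma f0_inj : Function.Injective f0 := by decide

lemma f0_bij : Function.Bijective f0 := Finite.injective_iff_bijective.1 f0_inj

lemma step_inj : Function.Injective (step f0) := by
  intro c c' h
  have key : ∀ x y : ℤ, (c x (y + 1)).2.2.1 = (c' x (y + 1)).2.2.1 ∧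
      (c (x + 1) y).2.2.2 = (c' (x + 1) y).2.2.2 ∧ (c x (y - 1)).1 = (c' x (y - 1)).1 ∧
      (c (x - 1) y).2.1 = (c' (x - 1) y).2.1 := by
    intro x y
    have e := f0_inj (congrFun (congrFun h x) y)
    simp only [Prod.mk.injEq] at e
    exact e
  funext x y
  have h1 := (key x (y + 1)).2.2.1
  have h2 := (key (x + 1) y).2.2.2
  have h3 := (key x (y - 1)).1
  have h4 := (key (x - 1) y).2.1
  simp only [add_sub_cancel_right, sub_add_cancel] at h1 h2 h3 h4
  exact Prod.ext h1 (Prod.ext h2 (Prod.ext h3 h4))

/-! ### Confinement -/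

/-- the cell lies in the box `[0, n] × [0, n]` -/
def In (n x y : ℤ) : Prop := 0 ≤ x ∧ x ≤ n ∧ 0 ≤ y ∧ y ≤ n

/-- outside of the box there are only particles facing a cell of the box -/
def Conf (n : ℤ) (c : Cfg) : Prop := ∀ x y, ¬ In n x y →
  ((c x y).1 = true → In n x (y + 1)) ∧ ((c x y).2.1 = true → In n (x + 1) y) ∧
  ((c x y).2.2.1 = true → In n x (y - 1)) ∧ ((c x y).2.2.2 = true → In n (x - 1) y)

lemma conf_step (n : ℤ) (c : Cfg) (h : Conf n c) : Conf n (step f0 c) := by
  intro x y hxy
  have ht : (c x (y + 1)).2.2.1 = true → In n x (y + 1) := by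
    intro e
    by_contra hn
    have := (h x (y + 1) hn).2.2.1 e
    rw [add_sub_cancel_right] at this
    exact hxy this
  have hr : (c (x + 1) y).2.2.2 = true → In n (x + 1) y := by
    intro e
    by_contra hn
    have := (h (x + 1) y hn).2.2.2 e
    rw [add_sub_cancel_right] at this
    exact hxy this
  have hb : (c x (y - 1)).1 = true → In n x (y - 1) := by
    intro e
    by_contra hn
    have := (h x (y - 1) hn).1 e
    rw [sub_add_cancel] at this
    exact hxy this
  have hl : (c (x - 1) y).2.1 = true → In n (x - 1) y := by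
    intro e
    by_contra hn
    have := (h (x - 1) y hn).2.1 e
    rw [sub_add_cancel] at this
    exact hxy this
  unfold step
  generalize (c x (y + 1)).2.2.1 = p at *
  generalize (c (x + 1) y).2.2.2 = q at *
  generalize (c x (y - 1)).1 = r at *
  generalize (c (x - 1) y).2.1 = s at *
  unfold In at *
  cases p <;> cases q <;> cases r <;> cases s <;>
    simp only [forall_const, Bool.false_eq_true, false_implies] at ht hr hb hl <;>
    first
      | (exfalso; omega)
      | (simp only [f0, forall_const, Bool.false_eq_true, false_implies, true_and, and_true]; omega)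
      | (simp [f0])

lemma particles_inj : Function.Injective particles := by
  intro c c' h
  funext x y
  have key : ∀ i : Fin 4, part (c x y) i = part (c' x y) i := by
    intro i
    have := Set.ext_iff.1 h (x, y, i)
    simp only [particles, Set.mem_ofPred_eq] at this
    exact Bool.eq_iff_iff.2 this
  have h0 := key 0
  have h1 := key 1
  have h2 := key 2
  have h3 := key 3
  simp only [part] at h0 h1 h2 h3
  exact Prod.ext h0 (Prod.ext h1 (Prod.ext h2 h3))

/-- a finite set containing all particles of a confined configuration -/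
def bigBox (n : ℤ) : Set (ℤ × ℤ × Fin 4) :=
  (Set.Icc (-1) (n + 1)) ×ˢ ((Set.Icc (-1) (n + 1)) ×ˢ Set.univ)

lemma bigBox_finite (n : ℤ) : (bigBox n).Finite :=
  (Set.finite_Icc _ _).prod ((Set.finite_Icc _ _).prod Set.finite_univ)

lemma conf_sub (n : ℤ) (c : Cfg) (h : Conf n c) : particles c ⊆ bigBox n := by
  rintro ⟨x, y, i⟩ hq
  have hq : part (c x y) i = true := hq
  have : (-1 ≤ x ∧ x ≤ n + 1) ∧ (-1 ≤ y ∧ y ≤ n + 1) := by
    by_cases hin : In n x y
    · unfold In at hin; omega
    · obtain ⟨h0, h1, h2, h3⟩ := h x y hin
      unfold In at *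
      fin_cases i
      · have := h0 hq; omega
      · have := h1 hq; omega
      · have := h2 hq; omega
      · have := h3 hq; omega
  simp only [bigBox, Set.mem_prod, Set.mem_Icc, Set.mem_univ, and_true]
  exact this

lemma conf_finite (n : ℤ) : {c : Cfg | Conf n c}.Finite := by
  have h1 : {b : Set (ℤ × ℤ × Fin 4) | b ⊆ bigBox n}.Finite := (bigBox_finite n).finite_subsets
  refine (h1.preimage particles_inj.injOn).subset ?_
  intro c hc
  exact conf_sub n c hc

lemma conf_iter (n : ℤ) (c : Cfg) (h : Conf n c) (i : ℕ) : Conf n ((step f0)^[i] c) := by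
  induction i with
  | zero => exact h
  | succ i ih =>
    rw [Function.iterate_succ_apply']
    exact conf_step n _ ih

/-- every confined configuration is periodic -/
lemma periodic (n : ℤ) (c : Cfg) (h : Conf n c) : ∃ p : ℕ, 1 ≤ p ∧ (step f0)^[p] c = c := by
  obtain ⟨a, b, hab, e⟩ := Set.Finite.exists_lt_map_eq_of_forall_mem
    (t := {c : Cfg | Conf n c}) (f := fun i : ℕ => (step f0)^[i] c) (conf_iter n c h)
    (conf_finite n)
  refine ⟨b - a, by omega, ?_⟩
  have hb : b = a + (b - a) := by omega
  have e : (step f0)^[a] c = (step f0)^[b] c := e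
  rw [hb, Function.iterate_add_apply] at e
  exact ((step_inj.iterate a) e).symm

/-! ### The growing diagonal line -/

/-- the diagonal line of `n` cells in the state `(0,1,1,0)` -/
def line (n : ℕ) : Cfg := fun x y =>
  if x = y ∧ 0 ≤ x ∧ x < n then (false, true, true, false) else zeroSt

/-- the state at time `t` on the diagonal `x - y = d`, away from the ends of the line -/
def E (t : ℕ) (d : ℤ) : St :=
  if 0 ≤ d ∧ d ≤ t ∧ ((t : ℤ) - d) % 2 = 0 then
    (if d = t then (if t = 0 then (false, true, true, false) else (true, true, true, false))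
      else (if d = 0 then (false, false, true, false) else (true, false, true, false)))
  else zeroSt

lemma E_out (t : ℕ) (d : ℤ) (h : ¬ (0 ≤ d ∧ d ≤ t ∧ ((t : ℤ) - d) % 2 = 0)) : E t d = zeroSt := by
  unfold E; rw [if_neg h]

lemma E_zero : E 0 0 = (false, true, true, false) := by
  unfold E; simp

lemma E_front (t : ℕ) (h : t ≠ 0) : E t t = (true, true, true, false) := by
  unfold E
  rw [if_pos ⟨by omega, le_refl _, by omega⟩, if_pos rfl, if_neg h]

lemma E_bottom (t : ℕ) (h : t ≠ 0) (h2 : t % 2 = 0) : E t 0 = (false, false, true, false) := by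
  unfold E
  rw [if_pos ⟨by omega, by omega, by omega⟩, if_neg (by omega), if_pos rfl]

lemma E_mid (t : ℕ) (d : ℤ) (h : 0 < d) (h1 : d < t) (h2 : ((t : ℤ) - d) % 2 = 0) :
    E t d = (true, false, true, false) := by
  unfold E
  rw [if_pos ⟨by omega, by omega, by omega⟩, if_neg (by omega), if_neg (by omega)]

lemma E_step (t : ℕ) (d : ℤ) : E (t + 1) d =
    f0 ((E t (d - 1)).2.2.1, (E t (d + 1)).2.2.2, (E t (d + 1)).1, (E t (d - 1)).2.1) := by
  by_cases hp : ((t : ℤ) + 1 - d) % 2 = 0
  swap
  · rw [E_out (t + 1) d (by push_cast; omega), E_out t (d - 1) (by omega),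
      E_out t (d + 1) (by omega)]
    rfl
  rcases lt_trichotomy d 0 with hd | hd | hd
  · -- negative diagonals stay empty
    rw [E_out (t + 1) d (by omega), E_out t (d - 1) (by omega)]
    by_cases hd1 : d = -1
    · subst hd1
      have : ((-1 : ℤ) + 1) = 0 := by norm_num
      rw [this]
      by_cases ht : t = 0
      · subst ht; rw [E_zero]; rfl
      · rw [E_bottom t ht (by omega)]; rfl
    · rw [E_out t (d + 1) (by omega)]; rfl
  · subst hd
    rw [E_bottom (t + 1) (by omega) (by omega), E_out t (0 - 1) (by omega)]
    by_cases ht : t = 1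
    · subst ht
      have : ((0 : ℤ) + 1) = ((1 : ℕ) : ℤ) := by norm_num
      rw [this, E_front 1 (by norm_num)]; rfl
    · rw [E_mid t (0 + 1) (by omega) (by omega) (by omega)]; rfl
  · rcases lt_trichotomy d (t + 1) with h | h | h
    · -- interior
      have e : E (t + 1) d = (true, false, true, false) := E_mid _ _ hd (by push_cast; omega)
        (by push_cast; omega)
      rw [e]
      have e1 : (E t (d + 1)).1 = true ∧ (E t (d + 1)).2.2.2 = false := by
        by_cases hf : d + 1 = t
        · rw [hf, E_front t (by omega)]; exact ⟨rfl, rfl⟩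
        · rw [E_mid t (d + 1) (by omega) (by omega) (by omega)]; exact ⟨rfl, rfl⟩
      have e2 : (E t (d - 1)).2.2.1 = true ∧ (E t (d - 1)).2.1 = false := by
        by_cases hf : d - 1 = 0
        · rw [hf, E_bottom t (by omega) (by omega)]; exact ⟨rfl, rfl⟩
        · rw [E_mid t (d - 1) (by omega) (by omega) (by omega)]; exact ⟨rfl, rfl⟩
      rw [e1.1, e1.2, e2.1, e2.2]; rfl
    · -- the front
      have e : E (t + 1) d = (true, true, true, false) := by
        have : d = ((t + 1 : ℕ) : ℤ) := by push_cast; exact h
        rw [this]; exact E_front _ (by omega)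
      rw [e, E_out t (d + 1) (by omega)]
      have : d - 1 = t := by omega
      rw [this]
      by_cases ht : t = 0
      · subst ht
        have : ((0 : ℕ) : ℤ) = 0 := rfl
        rw [this, E_zero]; rfl
      · rw [E_front t ht]; rfl
    · rw [E_out (t + 1) d (by push_cast; omega), E_out t (d - 1) (by omega),
        E_out t (d + 1) (by omega)]
      rfl

lemma line_iter (n : ℕ) (t : ℕ) : ∀ x y : ℤ, t ≤ x + y → x + y ≤ 2 * n - 2 - t →
    ((step f0)^[t] (line n)) x y = E t (x - y) := by
  induction t with
  | zero =>
    intro x y h1 h2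
    simp only [Function.iterate_zero, id_eq]
    unfold line
    by_cases h : x = y
    · subst h
      push_cast at h1 h2
      rw [if_pos ⟨rfl, by omega, by omega⟩, sub_self, E_zero]
    · rw [if_neg (fun hh => h hh.1), E_out 0 (x - y) (by push_cast; omega)]
  | succ t ih =>
    intro x y h1 h2
    push_cast at h1 h2
    rw [Function.iterate_succ_apply', E_step, step_apply]
    rw [show (step f0)^[t] (line n) x (y + 1) = E t (x - y - 1) by
        rw [ih x (y + 1) (by omega) (by omega)]; congr 1; ring,
      show (step f0)^[t] (line n) (x + 1) y = E t (x - y + 1) by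
        rw [ih (x + 1) y (by omega) (by omega)]; congr 1; ring,
      show (step f0)^[t] (line n) x (y - 1) = E t (x - y + 1) by
        rw [ih x (y - 1) (by omega) (by omega)]; congr 1; ring,
      show (step f0)^[t] (line n) (x - 1) y = E t (x - y - 1) by
        rw [ih (x - 1) y (by omega) (by omega)]; congr 1; ring]

lemma line_conf (n : ℕ) : Conf n (line n) := by
  intro x y h
  have : line n x y = zeroSt := by
    unfold line
    rw [if_neg]
    rintro ⟨h1, h2, h3⟩
    apply h
    unfold In
    omega
  rw [this]
  refine ⟨?_, ?_, ?_, ?_⟩ <;> intro h <;> exact absurd h (by decide)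

lemma pop_line (n : ℕ) : pop (line n) ≤ 2 * n := by
  have hsub : particles (line n) ⊆
      ((Finset.range n ×ˢ ({1, 2} : Finset (Fin 4))).image
        (fun q : ℕ × Fin 4 => ((q.1 : ℤ), (q.1 : ℤ), q.2)) : Finset (ℤ × ℤ × Fin 4)) := by
    rintro ⟨x, y, i⟩ hq0
    have hq : part (line n x y) i = true := hq0
    clear hq0
    unfold line at hq
    split_ifs at hq with h
    · obtain ⟨h1, h2, h3⟩ := h
      subst h1
      simp only [Finset.coe_image, Set.mem_image, Finset.mem_coe, Finset.mem_product,
        Finset.mem_range, Finset.mem_insert, Finset.mem_singleton]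
      refine ⟨(x.toNat, i), ⟨by omega, ?_⟩, ?_⟩
      · fin_cases i
        · exact absurd hq (by decide)
        · exact Or.inl rfl
        · exact Or.inr rfl
        · exact absurd hq (by decide)
      · have : ((x.toNat : ℕ) : ℤ) = x := by omega
        simp [this]
    · fin_cases i <;> exact absurd hq (by decide)
  unfold pop
  calc (particles (line n)).ncard ≤ _ := Set.ncard_le_ncard hsub (Finset.finite_toSet _)
    _ = _ := Set.ncard_coe_finset _
    _ ≤ (Finset.range n ×ˢ ({1, 2} : Finset (Fin 4))).card := Finset.card_image_le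
    _ = 2 * n := by
      rw [Finset.card_product, Finset.card_range]
      have : ({1, 2} : Finset (Fin 4)).card = 2 := by decide
      rw [this]; ring

lemma pop_late (k : ℕ) : (k + 1) * (2 * k) ≤ pop ((step f0)^[2 * k] (line (4 * k))) := by
  have hfin : (particles ((step f0)^[2 * k] (line (4 * k)))).Finite :=
    (bigBox_finite _).subset (conf_sub _ _ (conf_iter _ _ (line_conf (4 * k)) _))
  let g : ℕ × ℕ → ℤ × ℤ × Fin 4 := fun q => ((k : ℤ) + q.2 + q.1, (k : ℤ) + q.2 - q.1, 2)
  have hg : Function.Injective g := by
    rintro ⟨a, b⟩ ⟨a', b'⟩ h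
    simp only [g, Prod.mk.injEq, and_true] at h
    have h1 : (a : ℤ) = a' := by omega
    have h2 : (b : ℤ) = b' := by omega
    simp only [Prod.mk.injEq]
    exact ⟨by exact_mod_cast h1, by exact_mod_cast h2⟩
  have hsub : (((Finset.range (k + 1) ×ˢ Finset.range (2 * k)).image g :
      Finset (ℤ × ℤ × Fin 4)) : Set (ℤ × ℤ × Fin 4)) ⊆
      particles ((step f0)^[2 * k] (line (4 * k))) := by
    intro z hz
    simp only [Finset.coe_image, Set.mem_image, Finset.mem_coe, Finset.mem_product,
      Finset.mem_range] at hz
    obtain ⟨⟨a, b⟩, ⟨ha, hb⟩, rfl⟩ := hz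
    change part ((step f0)^[2 * k] (line (4 * k)) ((k : ℤ) + b + a) ((k : ℤ) + b - a)) 2 = true
    rw [line_iter (4 * k) (2 * k) _ _ (by push_cast; omega) (by push_cast; omega)]
    have e : ((k : ℤ) + b + a) - ((k : ℤ) + b - a) = 2 * a := by ring
    rw [e]
    unfold E
    rw [if_pos ⟨by omega, by push_cast; omega, by push_cast; omega⟩]
    split_ifs <;> rfl
  unfold pop
  calc (k + 1) * (2 * k) = (Finset.range (k + 1) ×ˢ Finset.range (2 * k)).card := by
        rw [Finset.card_product, Finset.card_range, Finset.card_range]
    _ = ((Finset.range (k + 1) ×ˢ Finset.range (2 * k)).image g).card :=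
        (Finset.card_image_of_injective _ hg).symm
    _ = _ := (Set.ncard_coe_finset _).symm
    _ ≤ _ := Set.ncard_le_ncard hsub hfin

/-! ### The result -/

lemma step_zero : step f0 (fun _ _ => zeroSt) = fun _ _ => zeroSt := by
  funext x y
  rfl

lemma iter_zero (i : ℕ) : (step f0)^[i] (fun _ _ => zeroSt) = fun _ _ => zeroSt := by
  induction i with
  | zero => rfl
  | succ i ih => rw [Function.iterate_succ_apply', ih, step_zero]

lemma particles_zero : particles (fun _ _ => zeroSt) = ∅ := by
  ext ⟨x, y, i⟩
  simp only [particles, Set.mem_ofPred_eq, Set.mem_empty_iff_false, iff_false]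
  fin_cases i <;> decide

/-- One reversible ESPCA whose periodic patterns have unbounded ratio of the largest to the
smallest population. -/
theorem result : ∃ f : St → St, IsESPCA f ∧ Function.Bijective f ∧
    ∀ M : ℕ, ∃ c : Cfg, (particles c).Finite ∧ (particles c).Nonempty ∧
      ∃ p : ℕ, 1 ≤ p ∧ (step f)^[p] c = c ∧ (M : ℝ) < (pmax f c p : ℝ) / (pmin f c p : ℝ) := by
  refine ⟨f0, f0_espca, f0_bij, ?_⟩
  intro M
  set k := 4 * M + 1 with hk
  have hc := line_conf (4 * k)
  obtain ⟨p, hp, hper⟩ := periodic _ _ hc
  have hne : (particles (line (4 * k))).Nonempty := by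
    refine ⟨((0 : ℤ), (0 : ℤ), (1 : Fin 4)), ?_⟩
    change part (line (4 * k) 0 0) 1 = true
    unfold line
    rw [if_pos ⟨rfl, le_refl _, by push_cast; omega⟩]
    rfl
  have hfin : ∀ i, (particles ((step f0)^[i] (line (4 * k)))).Finite := fun i =>
    (bigBox_finite _).subset (conf_sub _ _ (conf_iter _ _ hc i))
  refine ⟨line (4 * k), hfin 0, hne, p, hp, hper, ?_⟩
  -- the largest population
  have hmax : (k + 1) * (2 * k) ≤ pmax f0 (line (4 * k)) p := by
    have e : (step f0)^[2 * k % p] (line (4 * k)) = (step f0)^[2 * k] (line (4 * k)) :=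
      Function.IsPeriodicPt.iterate_mod_apply hper (2 * k)
    have h1 : pop ((step f0)^[2 * k % p] (line (4 * k))) ≤ pmax f0 (line (4 * k)) p := by
      unfold pmax
      exact Finset.le_sup (f := fun i => pop ((step f0)^[i] (line (4 * k))))
        (Finset.mem_range.2 (Nat.mod_lt _ (by omega)))
    rw [e] at h1
    exact (pop_late k).trans h1
  -- the smallest population
  have hmin : pmin f0 (line (4 * k)) p ≤ 8 * k := by
    unfold pmin
    have h0 : (0 : ℕ) ∈ {i : ℕ | i < p} := by
      show 0 < p
      omega
    have h1 := Nat.sInf_le (Set.mem_image_of_mem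
      (fun i => pop ((step f0)^[i] (line (4 * k)))) h0)
    have h2 := pop_line (4 * k)
    simp only [Function.iterate_zero, id_eq] at h1
    omega
  have hpos : 0 < pmin f0 (line (4 * k)) p := by
    have h0 : (0 : ℕ) ∈ {i : ℕ | i < p} := by
      show 0 < p
      omega
    obtain ⟨i, hi, he⟩ := Nat.sInf_mem (s := (fun i => pop ((step f0)^[i] (line (4 * k)))) ''
      {i | i < p}) ⟨_, Set.mem_image_of_mem _ h0⟩
    have he : pop ((step f0)^[i] (line (4 * k))) = pmin f0 (line (4 * k)) p := he
    rw [← he]
    unfold pop
    rw [Set.ncard_pos (hfin i)]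
    by_contra hn
    rw [Set.not_nonempty_iff_eq_empty] at hn
    have h1 : (step f0)^[i] (line (4 * k)) = fun _ _ => zeroSt :=
      particles_inj (by rw [hn, particles_zero])
    have h2 : line (4 * k) = fun _ _ => zeroSt := by
      apply step_inj.iterate i
      rw [h1, iter_zero]
    rw [h2, particles_zero] at hne
    exact Set.not_nonempty_empty hne
  rw [lt_div_iff₀ (by exact_mod_cast hpos)]
  have hlt : M * pmin f0 (line (4 * k)) p < pmax f0 (line (4 * k)) p := by
    calc M * pmin f0 (line (4 * k)) p ≤ M * (8 * k) := Nat.mul_le_mul_left _ hmin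
      _ < (k + 1) * (2 * k) := by
        have hk0 : 0 < k := by omega
        have : 4 * M < k + 1 := by omega
        nlinarith
      _ ≤ _ := hmax
  exact_mod_cast hlt

end Pool.Agent.Results.MP_b5d889_lc.UnboundedRatio
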